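import Pool.Agent.Q55.LM.Stm

/-!
# Project LM (helper55), job ASM: the assembly of the upper bound
-/

set_option autoImplicit false

namespace Pool.Agent.Q53.LM

open Module Pool.Agent.Q55.LM

lemma sum_ind (a N : ℕ) (h : a ≤ N) : ∑ k ∈ Finset.range N, (if k < a then 1 else 0) = a := by
  rw [← Finset.card_filter]
  have : (Finset.range N).filter (fun k => k < a) = Finset.range a := by
    ext k
    simp only [Finset.mem_filter, Finset.mem_range]
    omega
  rw [this, Finset.card_range]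

lemma sum_ind_le (a N : ℕ) : ∑ k ∈ Finset.range N, (if k < a then 1 else 0) ≤ a := by
  rw [← Finset.card_filter]
  have : (Finset.range N).filter (fun k => k < a) ⊆ Finset.range a := by
    intro k
    simp only [Finset.mem_filter, Finset.mem_range]
    omega
  exact (Finset.card_le_card this).trans (Finset.card_range a).le

/-- part (A), the counting -/
lemma count_A (n N : ℕ) (hN : 1 ≤ N) (h : ℕ → ℕ → ℕ) (F : ℕ → ℕ) (r : ℕ → ℕ → ℕ)
    (h1 : ∀ j q, h j q ≤ N) (h2 : ∀ j q, N ≤ j → h j q = 0)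
    (h3 : ∀ k j, 1 ≤ j → (if k < h j 0 then 1 else 0) +
      ∑ q ∈ Finset.Icc 2 (n * j), (if k < h j q then 1 else 0) ≤ F j - r k j)
    (h4 : ∀ k, (if k < h 0 0 then 1 else 0) ≤ F 0 - r k 0) :
    h 0 0 + ∑ j ∈ Finset.Icc 1 N, (h j 0 + ∑ q ∈ Finset.Icc 2 (n * j), h j q) ≤
      ∑ k ∈ Finset.range N, ∑ j ∈ Finset.range N, (F j - r k j) := by
  have e1 : ∑ j ∈ Finset.Icc 1 N, (h j 0 + ∑ q ∈ Finset.Icc 2 (n * j), h j q) =
      ∑ j ∈ Finset.Ico 1 N, (h j 0 + ∑ q ∈ Finset.Icc 2 (n * j), h j q) := by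
    symm
    apply Finset.sum_subset
    · intro j hj
      rw [Finset.mem_Ico] at hj
      rw [Finset.mem_Icc]
      omega
    · intro j hj hj'
      rw [Finset.mem_Icc] at hj
      rw [Finset.mem_Ico] at hj'
      have hjN : N ≤ j := by omega
      rw [h2 j 0 hjN, zero_add]
      exact Finset.sum_eq_zero fun q _ => h2 j q hjN
  have e2 : ∀ k, ∑ j ∈ Finset.range N, (F j - r k j) =
      (F 0 - r k 0) + ∑ j ∈ Finset.Ico 1 N, (F j - r k j) := by
    intro k
    rw [Finset.range_eq_Ico, Finset.sum_eq_sum_Ico_succ_bot (by omega)]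
  have e3 : ∑ k ∈ Finset.range N, ∑ j ∈ Finset.range N, (F j - r k j) =
      ∑ k ∈ Finset.range N, (F 0 - r k 0) +
        ∑ j ∈ Finset.Ico 1 N, ∑ k ∈ Finset.range N, (F j - r k j) := by
    rw [Finset.sum_congr rfl fun k _ => e2 k, Finset.sum_add_distrib]
    congr 1
    exact Finset.sum_comm
  rw [e1, e3]
  refine add_le_add ?_ (Finset.sum_le_sum fun j hj => ?_)
  · conv_lhs => rw [← sum_ind (h 0 0) N (h1 0 0)]
    exact Finset.sum_le_sum fun k _ => h4 k
  · rw [Finset.mem_Ico] at hj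
    calc h j 0 + ∑ q ∈ Finset.Icc 2 (n * j), h j q =
        ∑ k ∈ Finset.range N, ((if k < h j 0 then 1 else 0) +
          ∑ q ∈ Finset.Icc 2 (n * j), (if k < h j q then 1 else 0)) := by
          rw [Finset.sum_add_distrib, Finset.sum_comm, sum_ind _ _ (h1 j 0)]
          congr 1
          exact Finset.sum_congr rfl fun q _ => (sum_ind _ _ (h1 j q)).symm
      _ ≤ _ := Finset.sum_le_sum fun k _ => h3 k j hj.1

/-- part (C), the counting -/
lemma count_C (n c M : ℕ) (F : ℕ → ℕ) (r H : ℕ → ℕ → ℕ)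
    (hF : ∀ j, F j ≤ n * j + 1) (hF' : ∀ j, F (j + c) = n * j + n * c)
    (hH : ∀ j q k, 1 ≤ q → q ≤ n * j → H j q ≤ k → q + n * c ≤ r k (j + c)) :
    ∑ k ∈ Finset.range M, ∑ j ∈ Finset.range M, (F j - r k j) ≤
      M * (c * (n * c + 1)) + M * (M * (n * c)) +
        ∑ j ∈ Finset.range M, ∑ q ∈ Finset.Icc 1 (n * j), H j q := by
  have e1 : ∀ k, ∑ j ∈ Finset.range M, (F j - r k j) ≤
      c * (n * c + 1) + ∑ j ∈ Finset.range M, (F (j + c) - r k (j + c)) := by
    intro k
    have h1 : ∑ j ∈ Finset.range M, (F j - r k j) ≤ ∑ j ∈ Finset.range (c + M), (F j - r k j) :=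
      Finset.sum_le_sum_of_subset (Finset.range_mono (by omega))
    refine h1.trans ?_
    rw [Finset.sum_range_add]
    refine add_le_add ?_ ?_
    · calc ∑ j ∈ Finset.range c, (F j - r k j) ≤ ∑ j ∈ Finset.range c, (n * c + 1) := by
            refine Finset.sum_le_sum fun j hj => ?_
            rw [Finset.mem_range] at hj
            have h2 := hF j
            have h3 : n * j ≤ n * c := Nat.mul_le_mul_left n hj.le
            omega
        _ = c * (n * c + 1) := by rw [Finset.sum_const, Finset.card_range, smul_eq_mul]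
    · refine Finset.sum_le_sum fun j _ => ?_
      rw [add_comm c j]
  have e2 : ∀ k j, F (j + c) - r k (j + c) ≤
      n * c + ∑ q ∈ Finset.Icc 1 (n * j), (if k < H j q then 1 else 0) := by
    intro k j
    rw [hF', ← Finset.card_filter]
    have h1 : ((Finset.Icc 1 (n * j)).filter fun q => ¬ k < H j q).card ≤
        r k (j + c) - n * c := by
      have h2 : ((Finset.Icc 1 (n * j)).filter fun q => ¬ k < H j q) ⊆
          Finset.Icc 1 (r k (j + c) - n * c) := by
        intro q hq
        rw [Finset.mem_filter, Finset.mem_Icc] at hq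
        have h3 := hH j q k hq.1.1 hq.1.2 (not_lt.1 hq.2)
        rw [Finset.mem_Icc]
        omega
      refine (Finset.card_le_card h2).trans ?_
      rw [Nat.card_Icc]
      omega
    have h4 := Finset.card_filter_add_card_filter_not (s := Finset.Icc 1 (n * j))
      (fun q => k < H j q)
    rw [Nat.card_Icc] at h4
    omega
  calc ∑ k ∈ Finset.range M, ∑ j ∈ Finset.range M, (F j - r k j) ≤
      ∑ k ∈ Finset.range M, (c * (n * c + 1) + ∑ j ∈ Finset.range M, (n * c +
        ∑ q ∈ Finset.Icc 1 (n * j), (if k < H j q then 1 else 0))) := by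
        refine Finset.sum_le_sum fun k _ => (e1 k).trans ?_
        exact Nat.add_le_add_left (Finset.sum_le_sum fun j _ => e2 k j) _
    _ = M * (c * (n * c + 1)) + (M * (M * (n * c)) + ∑ j ∈ Finset.range M,
        ∑ q ∈ Finset.Icc 1 (n * j), ∑ k ∈ Finset.range M, (if k < H j q then 1 else 0)) := by
        rw [Finset.sum_add_distrib, Finset.sum_const, Finset.card_range, smul_eq_mul]
        congr 1
        rw [Finset.sum_congr rfl fun k _ => Finset.sum_add_distrib, Finset.sum_add_distrib]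
        congr 1
        · rw [Finset.sum_const, Finset.card_range, smul_eq_mul, Finset.sum_const,
            Finset.card_range, smul_eq_mul]
        · rw [Finset.sum_comm]
          exact Finset.sum_congr rfl fun j _ => Finset.sum_comm
    _ ≤ _ := by
        rw [← add_assoc]
        refine Nat.add_le_add_left (Finset.sum_le_sum fun j _ => Finset.sum_le_sum fun q _ => ?_) _
        exact sum_ind_le _ _

theorem asm : S_Asm := by
  classical
  intro hMu hDim hKey hLen hVMul hNear hComb B _ _ _ g n hn1 hn3 I hI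
  obtain ⟨mfin, mtop, mle, mmul, mmono, mline⟩ := hMu B g
  obtain ⟨v1, v2, v3, v4, v5, v6, v7⟩ := hVMul B g n
  obtain ⟨C, hC1, hC⟩ := hNear B g n hn1 I hI
  have hN1 : Near g n C I := by
    have := hC 1 le_rfl
    rwa [mul_one, pow_one] at this
  obtain ⟨fI, eI⟩ := hLen B g n C I hN1
  have sfin : ∀ (V : Submodule ℂ B) i, V ≤ g.fil i → Module.Finite ℂ V := fun V i h => by
    have := mfin i
    exact Submodule.finiteDimensional_of_le h
  have vfin : ∀ (I : Ideal (AR g n)) k j, Module.Finite ℂ (VV g n I k j) := fun I k j =>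
    sfin _ _ (v1 I k j)
  have frpos : ∀ V : Submodule ℂ B, Module.Finite ℂ V → V ≠ ⊥ → 1 ≤ finrank ℂ V :=
    fun V hf hV => Nat.one_le_iff_ne_zero.2 (fun h => hV (Submodule.finrank_eq_zero.1 h))
  have mu0 : ∀ V : Submodule ℂ B, Module.Finite ℂ V → V ≠ ⊥ → 0 ≤ g.mu V := by
    intro V hf hV
    obtain ⟨h2, h1⟩ := hDim B g V hf
    rcases (frpos V hf hV).eq_or_lt with h | h
    · rw [h1 h.symm]
    · have := h2 h
      omega
  have frfil : ∀ i, finrank ℂ (g.fil i) = if i = 0 then 1 else i := by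
    intro i
    split_ifs with h
    · rw [h, g.finrank_fil_zero]
    · exact g.finrank_fil i (by omega)
  have filne : ∀ i, g.fil i ≠ ⊥ := by
    intro i h
    have h1 := frfil i
    rw [h, finrank_bot] at h1
    split_ifs at h1
    omega
  have muub : ∀ (V : Submodule ℂ B) i, V ≤ g.fil i → V ≠ ⊥ → g.mu V ≤ i := by
    intro V i hV h0
    obtain ⟨v, hv, _, hd⟩ := mtop V (sfin V i hV) h0
    have h1 := (g.mem_fil i v).1 (hV hv)
    unfold Gen1.mu
    rw [← hd]
    omega
  have vmono : ∀ (I : Ideal (AR g n)) k k' j, k ≤ k' → VV g n I k j ≤ VV g n I k' j := by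
    intro I k k' j h
    induction h with
    | refl => exact le_rfl
    | step _ ih => exact ih.trans (v4 I _ j)
  -- the sets of the definition of `h`
  obtain ⟨S, hS⟩ : ∃ S : ℕ → ℕ → Set ℕ, ∀ j q k, k ∈ S j q ↔
      VV g n I k j ≠ ⊥ ∧ (q : ℤ) ≤ g.mu (VV g n I k j) :=
    ⟨fun j q => {k | VV g n I k j ≠ ⊥ ∧ (q : ℤ) ≤ g.mu (VV g n I k j)}, fun _ _ _ => Iff.rfl⟩
  have full : ∀ k j q, VV g n I k j = g.fil (n * j) → Valid n (j, q) → k ∈ S j q := by
    intro k j q h hv
    rw [hS, h]
    refine ⟨filne _, ?_⟩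
    rcases hv with hv | ⟨hv1, hv2⟩
    · simp only at hv
      rw [hv]
      exact mu0 _ (mfin _) (filne _)
    · simp only at hv1 hv2
      have h1 := (hDim B g (g.fil (n * j)) (mfin _)).1
      rw [frfil, if_neg (by omega)] at h1
      have h2 := h1 (by omega)
      have : (q : ℤ) ≤ ((n * j : ℕ) : ℤ) := by exact_mod_cast hv2
      omega
  obtain ⟨h, hdef⟩ : ∃ h : ℕ → ℕ → ℕ, ∀ j q, h j q = if Valid n (j, q) then sInf (S j q) else 0 :=
    ⟨fun j q => if Valid n (j, q) then sInf (S j q) else 0, fun _ _ => rfl⟩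
  have hmem : ∀ j q, Valid n (j, q) → VV g n I (h j q) j ≠ ⊥ ∧
      (q : ℤ) ≤ g.mu (VV g n I (h j q) j) := by
    intro j q hv
    have h1 : sInf (S j q) ∈ S j q := Nat.sInf_mem ⟨C, full C j q (v5 C I hN1 C j (Or.inl le_rfl)) hv⟩
    rw [hS] at h1
    rw [hdef, if_pos hv]
    exact h1
  have hle : ∀ j q k : ℕ, VV g n I k j ≠ ⊥ → (q : ℤ) ≤ g.mu (VV g n I k j) → h j q ≤ k := by
    intro j q k h1 h2
    rw [hdef]
    split_ifs
    · exact Nat.sInf_le ((hS j q k).2 ⟨h1, h2⟩)
    · exact Nat.zero_le _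
  have hleC : ∀ j q, h j q ≤ C := by
    intro j q
    rw [hdef]
    split_ifs with hv
    · exact Nat.sInf_le (full C j q (v5 C I hN1 C j (Or.inl le_rfl)) hv)
    · exact Nat.zero_le _
  have hz : ∀ j q, C ≤ j → h j q = 0 := by
    intro j q hj
    rw [hdef]
    split_ifs with hv
    · exact Nat.le_zero.1 (Nat.sInf_le (full 0 j q (v5 C I hN1 0 j (Or.inr hj)) hv))
    · rfl
  have h22 : n = 1 → h 2 2 ≤ h 0 0 := by
    intro hn
    obtain ⟨h1, -⟩ := hmem 0 0 (Or.inl rfl)
    have h2 : VV g n I (h 0 0) 0 = g.fil (n * 0) := by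
      have := mfin (n * 0)
      apply Submodule.eq_of_le_of_finrank_le (v1 I _ _)
      rw [frfil, if_pos (by simp)]
      exact frpos _ (vfin _ _ _) h1
    have h3 : g.fil (n * 2) ≤ VV g n I (h 0 0) (0 + 2) := by
      refine le_trans ?_ (v3 I (h 0 0) 0 2)
      intro b hb
      have h4 := Submodule.mul_mem_mul hb (show (1 : B) ∈ VV g n I (h 0 0) 0 by
        rw [h2]; exact g.one_mem _)
      rwa [mul_one] at h4
    have h4 : VV g n I (h 0 0) 2 = g.fil (n * 2) := le_antisymm (v1 I _ _) h3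
    have h5 := full _ 2 2 h4 (Or.inr ⟨le_rfl, by simp [hn]⟩)
    rw [hS] at h5
    exact hle 2 2 _ h5.1 h5.2
  obtain ⟨K, hK⟩ := hComb n hn1 hn3 C C h hz h22
  -- part (A)
  have hA : h 0 0 + ∑ j ∈ Finset.Icc 1 C, (h j 0 + ∑ q ∈ Finset.Icc 2 (n * j), h j q) ≤
      finrank ℂ (AR g n ⧸ I) := by
    rw [eI]
    refine count_A n C hC1 h (fun j => finrank ℂ (g.fil (n * j)))
      (fun k j => finrank ℂ (VV g n I k j)) hleC hz (fun k j hj => ?_) (fun k => ?_)
    · have hnj : 1 ≤ n * j := Nat.mul_pos hn1 hj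
      have hF : finrank ℂ (g.fil (n * j)) = n * j := g.finrank_fil _ hnj
      simp only [hF]
      rw [← Finset.card_filter]
      by_cases h0 : VV g n I k j = ⊥
      · rw [h0, finrank_bot]
        have h1 : ((Finset.Icc 2 (n * j)).filter fun q => k < h j q).card ≤ n * j - 1 := by
          refine (Finset.card_filter_le _ _).trans ?_
          rw [Nat.card_Icc]
          omega
        split_ifs <;> omega
      · have h1 : h j 0 ≤ k := hle j 0 k h0 (by
          exact_mod_cast mu0 _ (vfin _ _ _) h0)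
        rw [if_neg (by omega), zero_add]
        have h2 : ((Finset.Icc 2 (n * j)).filter fun q => k < h j q) ⊆
            Finset.Icc (finrank ℂ (VV g n I k j) + 1) (n * j) := by
          intro q hq
          rw [Finset.mem_filter, Finset.mem_Icc] at hq
          rw [Finset.mem_Icc]
          refine ⟨?_, hq.1.2⟩
          by_contra h3
          have h4 : 2 ≤ finrank ℂ (VV g n I k j) := by omega
          have h5 := (hDim B g _ (vfin I k j)).1 h4
          have h6 := hle j q k h0 (by
            refine le_trans ?_ h5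
            have : q ≤ finrank ℂ (VV g n I k j) := by omega
            exact_mod_cast this)
          omega
        refine (Finset.card_le_card h2).trans ?_
        rw [Nat.card_Icc]
        omega
    · by_cases h0 : VV g n I k 0 = ⊥
      · have h1 : finrank ℂ (VV g n I k 0) = 0 := by rw [h0, finrank_bot]
        have h2 : finrank ℂ (g.fil (n * 0)) = 1 := by rw [frfil, if_pos (by simp)]
        simp only [h1, h2]
        split_ifs <;> omega
      · have h1 : h 0 0 ≤ k := hle 0 0 k h0 (by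
          exact_mod_cast mu0 _ (vfin _ _ _) h0)
        rw [if_neg (by omega)]
        exact Nat.zero_le _
  -- finiteness
  have hfin : ∀ m, Module.Finite ℂ (AR g n ⧸ I ^ m) := by
    intro m
    rcases Nat.eq_zero_or_pos m with hm | hm
    · rw [hm, pow_zero, Ideal.one_eq_top]
      have : Subsingleton (AR g n ⧸ (⊤ : Ideal (AR g n))) :=
        Ideal.Quotient.subsingleton_iff.2 rfl
      infer_instance
    · exact (hLen B g n (C * m) (I ^ m) (hC m hm)).1
  obtain ⟨c, hc⟩ : ∃ c : ℕ, c = C + 3 := ⟨_, rfl⟩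
  refine ⟨fI, hfin, C * (c * (n * c + 1)) + C * (C * (n * c)) + K, fun m hm => ?_⟩
  have hNm := hC m hm
  obtain ⟨-, eIm⟩ := hLen B g n (C * m) (I ^ m) hNm
  obtain ⟨T, hT⟩ : ∃ T : ℕ → ℕ → Set ℕ, ∀ j q k, k ∈ T j q ↔
      q + n * c ≤ finrank ℂ (VV g n (I ^ m) k (j + c)) :=
    ⟨fun j q => {k | q + n * c ≤ finrank ℂ (VV g n (I ^ m) k (j + c))}, fun _ _ _ => Iff.rfl⟩
  obtain ⟨H, Hdef⟩ : ∃ H : ℕ → ℕ → ℕ, ∀ j q, H j q = if q ≤ n * j then sInf (T j q) else 0 :=
    ⟨fun j q => if q ≤ n * j then sInf (T j q) else 0, fun _ _ => rfl⟩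
  have hcn : ∀ j, finrank ℂ (g.fil (n * (j + c))) = n * j + n * c := by
    intro j
    have h1 : 1 ≤ n * (j + c) := Nat.mul_pos hn1 (by omega)
    rw [g.finrank_fil _ h1, mul_add]
  have Hmem : ∀ j q, q ≤ n * j → q + n * c ≤ finrank ℂ (VV g n (I ^ m) (H j q) (j + c)) := by
    intro j q hq
    have h1 : C * m ∈ T j q := by
      rw [hT, v5 (C * m) (I ^ m) hNm (C * m) (j + c) (Or.inl le_rfl), hcn]
      omega
    have h2 : sInf (T j q) ∈ T j q := Nat.sInf_mem ⟨_, h1⟩
    rw [hT] at h2
    rw [Hdef, if_pos hq]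
    exact h2
  -- part (B)
  have hB : ∀ L : List (ℕ × ℕ), L.length = m → (∀ P ∈ L, Valid n P ∧ P.1 ≤ C + 2) → ∀ j q : ℕ,
      (L.map Prod.fst).sum ≤ j → q ≤ (L.map Prod.snd).sum + n * (j - (L.map Prod.fst).sum) →
      H j q ≤ (L.map fun P => h P.1 P.2).sum := by
    intro L hLm hLv j q hj hq
    rw [Hdef]
    split_ifs with hqj
    swap
    · exact Nat.zero_le _
    apply Nat.sInf_le
    rw [hT]
    obtain ⟨c', hc'⟩ : ∃ c' : ℕ, c' = c + (j - (L.map Prod.fst).sum) := ⟨_, rfl⟩
    have hnc : n * (C + 2) + 1 ≤ n * c' := by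
      have h1 : C + 3 ≤ c' := by omega
      have h2 : n * (C + 3) ≤ n * c' := Nat.mul_le_mul_left n h1
      have h3 : n * (C + 3) = n * (C + 2) + n := by ring
      omega
    have hnc2 : 2 ≤ n * c' := by
      have : 0 < n * (C + 2) := Nat.mul_pos hn1 (by omega)
      omega
    have hk := hKey B g (n * c') hnc2 (L.map fun P => VV g n I (h P.1 P.2) P.1) (by
      intro V hV
      rw [List.mem_map] at hV
      obtain ⟨P, hP, rfl⟩ := hV
      obtain ⟨hv, hx⟩ := hLv P hP
      obtain ⟨h1, h2⟩ := hmem P.1 P.2 hv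
      refine ⟨h1, vfin _ _ _, ?_⟩
      have h3 := muub _ _ (v1 I (h P.1 P.2) P.1) h1
      have h4 : n * P.1 ≤ n * (C + 2) := Nat.mul_le_mul_left n hx
      have h5 : ((n * P.1 : ℕ) : ℤ) + 1 ≤ ((n * c' : ℕ) : ℤ) := by
        have : n * P.1 + 1 ≤ n * c' := by omega
        exact_mod_cast this
      omega)
    have h1 : (L.map fun P => VV g n I (h P.1 P.2) P.1).prod ≤
        VV g n (I ^ m) (L.map fun P => h P.1 P.2).sum (L.map Prod.fst).sum := by
      have h2 := v6 I (L.map fun P => (h P.1 P.2, P.1))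
      simp only [List.map_map, List.length_map, hLm, Function.comp_def] at h2
      exact h2
    have h2 : (L.map fun P => VV g n I (h P.1 P.2) P.1).prod * g.fil (n * c') ≤
        VV g n (I ^ m) (L.map fun P => h P.1 P.2).sum (j + c) := by
      have h3 := v3 (I ^ m) (L.map fun P => h P.1 P.2).sum (L.map Prod.fst).sum c'
      have h4 : (L.map Prod.fst).sum + c' = j + c := by omega
      rw [h4] at h3
      refine le_trans ?_ h3
      rw [mul_comm]
      exact mul_le_mul_right h1 _
    have h3 : finrank ℂ ((L.map fun P => VV g n I (h P.1 P.2) P.1).prod * g.fil (n * c') :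
        Submodule ℂ B) ≤ finrank ℂ (VV g n (I ^ m) (L.map fun P => h P.1 P.2).sum (j + c)) := by
      have := vfin (I ^ m) (L.map fun P => h P.1 P.2).sum (j + c)
      exact Submodule.finrank_mono h2
    have h4 : (((L.map Prod.snd).sum : ℕ) : ℤ) ≤
        ((L.map fun P => VV g n I (h P.1 P.2) P.1).map g.mu).sum := by
      have h5 : ∀ L' : List (ℕ × ℕ), (∀ P ∈ L', Valid n P) →
          (((L'.map Prod.snd).sum : ℕ) : ℤ) ≤
            ((L'.map fun P => VV g n I (h P.1 P.2) P.1).map g.mu).sum := by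
        intro L'
        induction L' with
        | nil => intro _; simp
        | cons P L' ih =>
          intro hP
          simp only [List.map_cons, List.sum_cons, Nat.cast_add]
          exact add_le_add (hmem P.1 P.2 (hP P (List.mem_cons_self ..))).2
            (ih fun Q hQ => hP Q (List.mem_cons_of_mem _ hQ))
      exact h5 L fun P hP => (hLv P hP).1
    have h5 : n * c' = n * c + n * (j - (L.map Prod.fst).sum) := by rw [hc', mul_add]
    omega
  have hm2 := hK m hm H hB
  -- part (C)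
  have hCC := count_C n c (C * m) (fun j => finrank ℂ (g.fil (n * j)))
    (fun k j => finrank ℂ (VV g n (I ^ m) k j)) H (fun j => by
      simp only [frfil]
      split_ifs <;> omega) hcn (fun j q k _ hq hk => by
      refine (Hmem j q hq).trans ?_
      have := vfin (I ^ m) k (j + c)
      exact Submodule.finrank_mono (vmono (I ^ m) _ _ _ hk))
  rw [eIm]
  refine hCC.trans ?_
  have h5 : m ^ 3 * (h 0 0 + ∑ j ∈ Finset.Icc 1 C, (h j 0 + ∑ q ∈ Finset.Icc 2 (n * j), h j q)) ≤
      m ^ 3 * finrank ℂ (AR g n ⧸ I) := Nat.mul_le_mul_left _ hA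
  have h6 : C * m * (c * (n * c + 1)) ≤ C * (c * (n * c + 1)) * m ^ 2 := by
    have : m ≤ m ^ 2 := by nlinarith
    calc C * m * (c * (n * c + 1)) = C * (c * (n * c + 1)) * m := by ring
      _ ≤ _ := Nat.mul_le_mul_left _ this
  have h7 : C * m * (C * m * (n * c)) = C * (C * (n * c)) * m ^ 2 := by ring
  calc C * m * (c * (n * c + 1)) + C * m * (C * m * (n * c)) +
      ∑ j ∈ Finset.range (C * m), ∑ q ∈ Finset.Icc 1 (n * j), H j q ≤
      C * (c * (n * c + 1)) * m ^ 2 + C * (C * (n * c)) * m ^ 2 +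
      (m ^ 3 * finrank ℂ (AR g n ⧸ I) + K * m ^ 2) := by
        rw [h7]
        exact add_le_add (add_le_add h6 le_rfl) (hm2.trans (Nat.add_le_add_right h5 _))
    _ = _ := by ring

end Pool.Agent.Q53.LM
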