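import Pool.Agent.Q55.LM.Stm

/-!
# Project LM (helper55), job DIM: the genus one bound
-/

set_option autoImplicit false

namespace Pool.Agent.Q53.LM

open Module Pool.Agent.Q55.LM

lemma quot_le {B : Type} [CommRing B] [Algebra ℂ B] {J I : Ideal B} (h : J ≤ I)
    (hJ : Module.Finite ℂ (B ⧸ J)) :
    Module.Finite ℂ (B ⧸ I) ∧ finrank ℂ (B ⧸ I) ≤ finrank ℂ (B ⧸ J) ∧
     (finrank ℂ (B ⧸ I) = finrank ℂ (B ⧸ J) → I = J) := by
  obtain ⟨f, hf⟩ : ∃ f : (B ⧸ J) →ₗ[ℂ] (B ⧸ I), ∀ b : B, f (Ideal.Quotient.mk J b) =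
      Ideal.Quotient.mk I b := ⟨(Ideal.Quotient.factorₐ ℂ h).toLinearMap, fun b => rfl⟩
  have hs : Function.Surjective f := by
    intro y
    obtain ⟨b, rfl⟩ := Ideal.Quotient.mk_surjective y
    exact ⟨Ideal.Quotient.mk J b, hf b⟩
  have hI : Module.Finite ℂ (B ⧸ I) := Module.Finite.of_surjective f hs
  refine ⟨hI, ?_, fun he => le_antisymm (fun x hx => ?_) h⟩
  · have h1 := LinearMap.finrank_range_add_finrank_ker f
    rw [LinearMap.range_eq_top.2 hs, finrank_top] at h1
    omega
  · have hinj := (LinearMap.injective_iff_surjective_of_finrank_eq_finrank he.symm).2 hs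
    rw [← Ideal.Quotient.eq_zero_iff_mem]
    apply hinj
    rw [hf, map_zero]
    exact Ideal.Quotient.eq_zero_iff_mem.2 hx

theorem dim (hMu : S_Mu) : S_Dim := by
  classical
  intro B _ _ _ g V hV
  obtain ⟨mfin, mtop, mle, mmul, mmono, mline⟩ := hMu B g
  refine ⟨fun h2 => ?_, fun h1 => ?_⟩
  · have hV0 : V ≠ ⊥ := by
      rintro rfl
      rw [finrank_bot] at h2
      omega
    obtain ⟨v0, hv0, hv0', hd⟩ := mtop V hV hV0
    obtain ⟨d, hdd⟩ : ∃ d, d = g.top V := ⟨_, rfl⟩
    have hVd : V ≤ g.fil d := fun v hv => (g.mem_fil d v).2 (hdd ▸ mle V hV v hv)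
    obtain ⟨I, hIdef⟩ : ∃ I : Ideal B, I = Ideal.span (V : Set B) := ⟨_, rfl⟩
    have hVI : ∀ v ∈ V, v ∈ I := fun v hv => hIdef ▸ Ideal.subset_span hv
    have hex : ∃ e, ∃ u ∈ I, u ≠ 0 ∧ g.deg u = e := ⟨_, v0, hVI v0 hv0, hv0', rfl⟩
    obtain ⟨u, huI, hu0, hue⟩ := Nat.find_spec hex
    have hmin : ∀ w ∈ I, w ≠ 0 → g.deg u ≤ g.deg w := fun w hw hw0 => by
      rw [hue]
      exact Nat.find_min' hex ⟨w, hw, hw0, rfl⟩
    clear hue
    obtain ⟨e, he⟩ : ∃ e, e = g.deg u := ⟨_, rfl⟩
    have hed : e ≤ d := by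
      rw [he, hdd, ← hd]
      exact hmin v0 (hVI v0 hv0) hv0'
    have hule : Ideal.span {u} ≤ I := (Ideal.span_singleton_le_iff_mem I).2 huI
    obtain ⟨fI, hc, hceq⟩ := quot_le hule (g.fin_quot u hu0)
    rw [g.finrank_quot u hu0, ← he] at hc hceq
    have key : finrank ℂ V + finrank ℂ (B ⧸ I) ≤ d := by
      by_cases h : finrank ℂ (B ⧸ I) = e
      · have hI := hceq h
        obtain ⟨V', hV'⟩ : ∃ V' : Submodule ℂ B, V' = V.comap (LinearMap.mulLeft ℂ u) := ⟨_, rfl⟩
        have h3 : V ≤ V'.map (LinearMap.mulLeft ℂ u) := by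
          intro v hv
          have h4 := hVI v hv
          rw [hI, Ideal.mem_span_singleton'] at h4
          obtain ⟨b, hb⟩ := h4
          have h5 : LinearMap.mulLeft ℂ u b = v := by rw [LinearMap.mulLeft_apply, ← hb, mul_comm]
          exact ⟨b, by rw [hV']; change LinearMap.mulLeft ℂ u b ∈ V; rw [h5]; exact hv, h5⟩
        have h4 : V' ≤ g.fil (d - e) := by
          intro b hb
          rw [g.mem_fil]
          by_cases hb0 : b = 0
          · rw [hb0, g.deg_zero]
            exact Nat.zero_le _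
          rw [hV'] at hb
          have h5 : u * b ∈ V := hb
          have h6 := (g.mem_fil d _).1 (hVd h5)
          rw [g.deg_mul u b hu0 hb0, ← he] at h6
          omega
        have f1 := mfin (d - e)
        have f2 : Module.Finite ℂ V' := Submodule.finiteDimensional_of_le h4
        have h5 : finrank ℂ V ≤ finrank ℂ (g.fil (d - e)) :=
          (Submodule.finrank_mono h3).trans ((Submodule.finrank_map_le _ _).trans
            (Submodule.finrank_mono h4))
        rcases Nat.eq_zero_or_pos (d - e) with h6 | h6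
        · rw [h6, g.finrank_fil_zero] at h5
          omega
        · rw [g.finrank_fil _ h6] at h5
          omega
      · have hlt : finrank ℂ (B ⧸ I) < e := lt_of_le_of_ne hc h
        obtain ⟨π, hπ⟩ : ∃ π : B →ₗ[ℂ] (B ⧸ I), ∀ b, π b = Ideal.Quotient.mk I b :=
          ⟨(Ideal.Quotient.mkₐ ℂ I).toLinearMap, fun b => rfl⟩
        have f1 := mfin (e - 1)
        have fd := mfin d
        have h3 : Function.Injective (π ∘ₗ (g.fil (e - 1)).subtype) := by
          rw [injective_iff_map_eq_zero]
          rintro ⟨a, ha⟩ h4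
          have h5 : π a = 0 := h4
          rw [hπ, Ideal.Quotient.eq_zero_iff_mem] at h5
          by_contra h6
          have h7 : a ≠ 0 := fun h8 => h6 (Subtype.ext h8)
          have h8 := hmin a h5 h7
          rw [g.mem_fil] at ha
          omega
        have h4 := LinearMap.finrank_le_finrank_of_injective h3
        have h5 : e - 1 ≠ 0 := by
          intro h6
          rw [h6, g.finrank_fil_zero] at h4
          omega
        rw [g.finrank_fil (e - 1) (by omega)] at h4
        have h6 : finrank ℂ (g.fil (e - 1)) = finrank ℂ (B ⧸ I) := by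
          rw [g.finrank_fil (e - 1) (by omega)]
          omega
        have h7 := (LinearMap.injective_iff_surjective_of_finrank_eq_finrank h6).1 h3
        have h8 : Function.Surjective (π ∘ₗ (g.fil d).subtype) := by
          intro y
          obtain ⟨⟨a, ha⟩, h9⟩ := h7 y
          exact ⟨⟨a, g.fil_mono (by omega) ha⟩, h9⟩
        have h9 := LinearMap.finrank_range_add_finrank_ker (π ∘ₗ (g.fil d).subtype)
        rw [LinearMap.range_eq_top.2 h8, finrank_top, g.finrank_fil d (by omega)] at h9
        have h10 : V ≤ (LinearMap.ker (π ∘ₗ (g.fil d).subtype)).map (g.fil d).subtype := by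
          intro v hv
          refine ⟨⟨v, hVd hv⟩, ?_, rfl⟩
          change π v = 0
          rw [hπ, Ideal.Quotient.eq_zero_iff_mem]
          exact hVI v hv
        have h11 : finrank ℂ V ≤ finrank ℂ (LinearMap.ker (π ∘ₗ (g.fil d).subtype)) :=
          (Submodule.finrank_mono h10).trans (Submodule.finrank_map_le _ _)
        omega
    unfold Gen1.mu
    rw [← hIdef, ← hdd]
    omega
  · have hV0 : V ≠ ⊥ := by
      rintro rfl
      rw [finrank_bot] at h1
      omega
    obtain ⟨v0, hv0, hv0', -⟩ := mtop V hV hV0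
    have h2 : Submodule.span ℂ {v0} = V := by
      apply Submodule.eq_of_le_of_finrank_eq
      · rw [Submodule.span_singleton_le_iff_mem]
        exact hv0
      · rw [h1, finrank_span_singleton hv0']
    rw [← h2]
    exact mline v0 hv0'

end Pool.Agent.Q53.LM
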