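import Pool.Agent.Q55.LM.Stm

/-!
# Project LM (helper55), job KEY: the base point free pencil trick
-/

set_option autoImplicit false

namespace Pool.Agent.Q53.LM

open Module Pool.Agent.Q55.LM

lemma mul_fin {B : Type} [CommRing B] [Algebra ℂ B] {V W : Submodule ℂ B}
    (hV : Module.Finite ℂ V) (hW : Module.Finite ℂ W) :
    Module.Finite ℂ (V * W : Submodule ℂ B) :=
  Module.Finite.iff_fg.2 ((Module.Finite.iff_fg.1 hV).mul (Module.Finite.iff_fg.1 hW))

lemma mul_ne_bot {B : Type} [CommRing B] [IsDomain B] [Algebra ℂ B] {V W : Submodule ℂ B}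
    (hV : V ≠ ⊥) (hW : W ≠ ⊥) : V * W ≠ ⊥ := by
  obtain ⟨v, hv, hv0⟩ := (Submodule.ne_bot_iff _).1 hV
  obtain ⟨w, hw, hw0⟩ := (Submodule.ne_bot_iff _).1 hW
  exact (Submodule.ne_bot_iff _).2 ⟨v * w, Submodule.mul_mem_mul hv hw, mul_ne_zero hv0 hw0⟩

lemma fr_map_mul {B : Type} [CommRing B] [IsDomain B] [Algebra ℂ B] (W : Submodule ℂ B) {s : B}
    (hs : s ≠ 0) : finrank ℂ (W.map (LinearMap.mulLeft ℂ s)) = finrank ℂ W := by
  have hinj : Function.Injective (LinearMap.mulLeft ℂ s) := fun a b h => by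
    rw [LinearMap.mulLeft_apply, LinearMap.mulLeft_apply] at h
    exact mul_left_cancel₀ hs h
  exact (Submodule.equivMapOfInjective (LinearMap.mulLeft ℂ s) hinj W).finrank_eq.symm

theorem step (hMu : S_Mu) (hDim : S_Dim) (hPen : S_Pencil)
    {B : Type} [CommRing B] [IsDedekindDomain B] [Algebra ℂ B] (g : Gen1 B)
    {V W : Submodule ℂ B} (hV : Module.Finite ℂ V) (hW : Module.Finite ℂ W) (hV0 : V ≠ ⊥)
    (hW0 : W ≠ ⊥) (h1 : (finrank ℂ W : ℤ) = g.mu W) (h2 : g.mu V + 1 ≤ g.mu W) :
    (finrank ℂ (V * W : Submodule ℂ B) : ℤ) = g.mu (V * W) ∧ g.mu (V * W) = g.mu V + g.mu W ∧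
      0 ≤ g.mu V := by
  obtain ⟨mfin, mtop, mle, mmul, mmono, mline⟩ := hMu B g
  have frpos : ∀ V : Submodule ℂ B, Module.Finite ℂ V → V ≠ ⊥ → 1 ≤ finrank ℂ V :=
    fun V hf hV => Nat.one_le_iff_ne_zero.2 (fun h => hV (Submodule.finrank_eq_zero.1 h))
  have mu0 : ∀ V : Submodule ℂ B, Module.Finite ℂ V → V ≠ ⊥ → 0 ≤ g.mu V := by
    intro V hf hV
    obtain ⟨h2, h1⟩ := hDim B g V hf
    rcases (frpos V hf hV).eq_or_lt with h | h
    · rw [h1 h.symm]
    · have := h2 h
      omega
  have hmV := mu0 V hV hV0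
  have hVW := mul_fin hV hW
  have hVW0 := mul_ne_bot hV0 hW0
  have hmul := mmul V W hV hW hV0 hW0
  have hW2 : 2 ≤ finrank ℂ W := by
    rcases (frpos W hW hW0).eq_or_lt with h | h
    · have := (hDim B g W hW).2 h.symm
      omega
    · exact h
  have hge : g.mu V + g.mu W ≤ (finrank ℂ (V * W : Submodule ℂ B) : ℤ) := by
    rcases (frpos V hV hV0).eq_or_lt with h | h
    · obtain ⟨s, hs, hs0⟩ := (Submodule.ne_bot_iff _).1 hV0
      have h3 : W.map (LinearMap.mulLeft ℂ s) ≤ V * W := by
        rintro _ ⟨w, hw, rfl⟩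
        exact Submodule.mul_mem_mul hs hw
      have h4 := Submodule.finrank_mono h3
      rw [fr_map_mul W hs0] at h4
      rw [(hDim B g V hV).2 h.symm]
      omega
    · obtain ⟨s, t, hs, ht, hP2, hPmu⟩ := hPen B g V hV h
      obtain ⟨P, hP⟩ : ∃ P : Submodule ℂ B, P = Submodule.span ℂ ({s, t} : Set B) := ⟨_, rfl⟩
      rw [← hP] at hP2 hPmu
      have hs0 : s ≠ 0 := by
        rintro rfl
        rw [Submodule.span_insert_zero] at hP
        have h3 : finrank ℂ P ≤ 1 := by
          rw [hP]
          refine (finrank_span_le_card _).trans ?_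
          simp
        omega
      have ht0 : t ≠ 0 := by
        rintro rfl
        rw [Set.pair_comm, Submodule.span_insert_zero] at hP
        have h3 : finrank ℂ P ≤ 1 := by
          rw [hP]
          refine (finrank_span_le_card _).trans ?_
          simp
        omega
      have hPf : Module.Finite ℂ P := by
        apply Module.finite_of_finrank_pos
        omega
      have hP0 : P ≠ ⊥ := by
        rintro h3
        rw [h3, finrank_bot] at hP2
        omega
      have h3 : W.map (LinearMap.mulLeft ℂ s) ⊔ W.map (LinearMap.mulLeft ℂ t) ≤ V * W := by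
        rw [sup_le_iff]
        constructor
        · rintro _ ⟨w, hw, rfl⟩
          exact Submodule.mul_mem_mul hs hw
        · rintro _ ⟨w, hw, rfl⟩
          exact Submodule.mul_mem_mul ht hw
      have h4 := Submodule.finrank_mono h3
      have h5 := Submodule.finrank_sup_add_finrank_inf_eq (W.map (LinearMap.mulLeft ℂ s))
        (W.map (LinearMap.mulLeft ℂ t))
      rw [fr_map_mul W hs0, fr_map_mul W ht0] at h5
      obtain ⟨U, hU⟩ : ∃ U : Submodule ℂ B, U = W ⊓
        (W.map (LinearMap.mulLeft ℂ t)).comap (LinearMap.mulLeft ℂ s) := ⟨_, rfl⟩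
      have hUW : U ≤ W := by rw [hU]; exact inf_le_left
      have hUf : Module.Finite ℂ U := Submodule.finiteDimensional_of_le hUW
      have h6 : W.map (LinearMap.mulLeft ℂ s) ⊓ W.map (LinearMap.mulLeft ℂ t) ≤
          U.map (LinearMap.mulLeft ℂ s) := by
        rintro _ ⟨⟨w, hw, rfl⟩, h7⟩
        refine ⟨w, ?_, rfl⟩
        rw [hU]
        exact ⟨hw, h7⟩
      have h7 : finrank ℂ (W.map (LinearMap.mulLeft ℂ s) ⊓ W.map (LinearMap.mulLeft ℂ t) :
          Submodule ℂ B) ≤ finrank ℂ U :=
        (Submodule.finrank_mono h6).trans (Submodule.finrank_map_le _ _)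
      have h8 : (finrank ℂ U : ℤ) ≤ g.mu W - g.mu V := by
        by_cases hU0 : U = ⊥
        · rw [hU0, finrank_bot]
          push_cast
          omega
        · rcases (frpos U hUf hU0).eq_or_lt with h9 | h9
          · rw [← h9]
            push_cast
            omega
          · have h10 := (hDim B g U hUf).1 h9
            have htf : Module.Finite ℂ (Submodule.span ℂ {t} : Submodule ℂ B) := by infer_instance
            have ht1 : (Submodule.span ℂ {t} : Submodule ℂ B) ≠ ⊥ := by
              rw [Ne, Submodule.span_singleton_eq_bot]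
              exact ht0
            have h11 : P * U ≤ Submodule.span ℂ {t} * W := by
              rw [Submodule.mul_le]
              intro p hp u hu
              rw [hP, Submodule.mem_span_pair] at hp
              obtain ⟨a, b, rfl⟩ := hp
              rw [hU] at hu
              obtain ⟨hu1, hu2⟩ := hu
              obtain ⟨w, hw, hw2⟩ := hu2
              rw [LinearMap.mulLeft_apply, LinearMap.mulLeft_apply] at hw2
              rw [add_mul, smul_mul_assoc, smul_mul_assoc, ← hw2]
              have h12 : t ∈ (Submodule.span ℂ {t} : Submodule ℂ B) :=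
                Submodule.mem_span_singleton_self t
              exact Submodule.add_mem _ (Submodule.smul_mem _ _ (Submodule.mul_mem_mul h12 hw))
                (Submodule.smul_mem _ _ (Submodule.mul_mem_mul h12 hu1))
            have h12 := mmono (P * U) (Submodule.span ℂ {t} * W) (mul_fin htf hW)
              (mul_ne_bot hP0 hU0) h11
            rw [mmul P U hPf hUf hP0 hU0, mmul _ W htf hW ht1 hW0, mline t ht0, hPmu] at h12
            omega
      omega
  have h3 := (hDim B g _ hVW).1 (by omega)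
  exact ⟨by omega, hmul, hmV⟩

theorem key (hMu : S_Mu) (hDim : S_Dim) (hPen : S_Pencil) : S_Key := by
  intro B _ _ _ g c hc L
  obtain ⟨mfin, mtop, mle, mmul, mmono, mline⟩ := hMu B g
  have hc0 : g.fil c ≠ ⊥ := by
    intro h
    have h1 := g.finrank_fil c (by omega)
    rw [h, finrank_bot] at h1
    omega
  have hmc : g.mu (g.fil c) = c := by
    apply le_antisymm
    · obtain ⟨v, hv, _, hd⟩ := mtop _ (mfin c) hc0
      have h1 := (g.mem_fil c v).1 hv
      unfold Gen1.mu
      rw [← hd]
      omega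
    · have h1 := (hDim B g (g.fil c) (mfin c)).1
      rw [g.finrank_fil c (by omega)] at h1
      exact h1 hc
  have main : ∀ L : List (Submodule ℂ B),
      (∀ V ∈ L, V ≠ ⊥ ∧ Module.Finite ℂ V ∧ g.mu V + 1 ≤ c) →
      Module.Finite ℂ (L.prod * g.fil c : Submodule ℂ B) ∧ L.prod * g.fil c ≠ ⊥ ∧
      (finrank ℂ (L.prod * g.fil c : Submodule ℂ B) : ℤ) = g.mu (L.prod * g.fil c) ∧
      g.mu (L.prod * g.fil c) = (L.map g.mu).sum + c ∧ 0 ≤ (L.map g.mu).sum := by
    intro L
    induction L with
    | nil =>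
      intro _
      rw [List.prod_nil, one_mul, List.map_nil, List.sum_nil, zero_add]
      refine ⟨mfin c, hc0, ?_, hmc, le_rfl⟩
      rw [hmc, g.finrank_fil c (by omega)]
    | cons V L ih =>
      intro h
      obtain ⟨i1, i2, i3, i4, i5⟩ := ih fun V hV => h V (List.mem_cons_of_mem _ hV)
      obtain ⟨hV0, hVf, hVm⟩ := h V (List.mem_cons_self ..)
      rw [List.prod_cons, List.map_cons, List.sum_cons, mul_assoc]
      obtain ⟨j1, j2, j3⟩ := step hMu hDim hPen g hVf i1 hV0 i2 i3 (by omega)
      exact ⟨mul_fin hVf i1, mul_ne_bot hV0 i2, j1, by omega, by omega⟩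
  intro h
  obtain ⟨i1, i2, i3, i4, i5⟩ := main L h
  omega

end Pool.Agent.Q53.LM
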