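import Pool.Agent.Q55.LM.Stm

/-!
# Project LM (helper55), job LEN: the colength is the sum of the codimensions of the spaces of
leading coefficients
-/

set_option autoImplicit false

namespace Pool.Agent.Q53.LM

open Module Pool.Agent.Q55.LM

section Abstract

variable {A E B Q : Type} [AddCommGroup A] [Module ℂ A] [AddCommGroup E] [Module ℂ E]
  [AddCommGroup B] [Module ℂ B] [AddCommGroup Q] [Module ℂ Q]

lemma fr_map_inf [Module.Finite ℂ E] (X : Submodule ℂ E) (f : E →ₗ[ℂ] B) :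
    finrank ℂ (X.map f) + finrank ℂ (X ⊓ LinearMap.ker f : Submodule ℂ E) = finrank ℂ X := by
  have h := LinearMap.finrank_range_add_finrank_ker (f.domRestrict X)
  have h1 : (LinearMap.ker (f.domRestrict X)).map X.subtype = X ⊓ LinearMap.ker f := by
    ext x
    constructor
    · rintro ⟨y, hy, rfl⟩
      exact ⟨y.2, hy⟩
    · rintro ⟨h1, h2⟩
      exact ⟨⟨x, h1⟩, h2, rfl⟩
  have h2 : LinearMap.range (f.domRestrict X) = X.map f := by
    ext x
    constructor
    · rintro ⟨y, rfl⟩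
      exact ⟨y, y.2, rfl⟩
    · rintro ⟨y, hy, rfl⟩
      exact ⟨⟨y, hy⟩, rfl⟩
  have h3 : finrank ℂ (LinearMap.ker (f.domRestrict X)) =
      finrank ℂ (X ⊓ LinearMap.ker f : Submodule ℂ E) := by
    rw [← h1]
    exact (Submodule.equivMapOfInjective X.subtype (Submodule.injective_subtype X) _).finrank_eq
  rw [h2, h3] at h
  exact h

lemma fr_sum [Module.Finite ℂ E] (Φ : A →ₗ[ℂ] E) (c : ℕ → A →ₗ[ℂ] B) (c' : ℕ → E →ₗ[ℂ] B) (P : ℕ)
    (G : ℕ → Submodule ℂ A) (hG : ∀ p a, a ∈ G p ↔ ∀ p' < p, c p' a = 0)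
    (hc : ∀ p < P, ∀ a, c' p (Φ a) = c p a) (hΦ : ∀ a, (∀ p < P, c p a = 0) → Φ a = 0)
    (W : Submodule ℂ A) :
    finrank ℂ (W.map Φ) = ∑ p ∈ Finset.range P, finrank ℂ ((W ⊓ G p).map (c p)) := by
  have h1 : ∀ p ≤ P, finrank ℂ (W.map Φ) = ∑ p' ∈ Finset.range p,
      finrank ℂ ((W ⊓ G p').map (c p')) + finrank ℂ ((W ⊓ G p).map Φ) := by
    intro p
    induction p with
    | zero =>
      intro _
      have : G 0 = ⊤ := by
        ext a
        rw [hG]
        simp
      rw [this, inf_top_eq, Finset.sum_range_zero, zero_add]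
    | succ p ih =>
      intro hp
      rw [ih (by omega), Finset.sum_range_succ, add_assoc]
      congr 1
      have h2 := fr_map_inf ((W ⊓ G p).map Φ) (c' p)
      have h3 : ((W ⊓ G p).map Φ).map (c' p) = (W ⊓ G p).map (c p) := by
        ext b
        constructor
        · rintro ⟨_, ⟨a, ha, rfl⟩, rfl⟩
          exact ⟨a, ha, (hc p (by omega) a).symm⟩
        · rintro ⟨a, ha, rfl⟩
          exact ⟨_, ⟨a, ha, rfl⟩, hc p (by omega) a⟩
      have h4 : (W ⊓ G p).map Φ ⊓ LinearMap.ker (c' p) = (W ⊓ G (p + 1)).map Φ := by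
        ext x
        constructor
        · rintro ⟨⟨a, ⟨ha1, ha2⟩, rfl⟩, h5⟩
          refine ⟨a, ⟨ha1, ?_⟩, rfl⟩
          have h6 : c' p (Φ a) = 0 := h5
          rw [hc p (by omega)] at h6
          have ha3 : a ∈ G p := ha2
          rw [hG] at ha3
          change a ∈ G (p + 1)
          rw [hG]
          intro p' hp'
          rcases Nat.lt_succ_iff_lt_or_eq.1 hp' with h7 | h7
          · exact ha3 p' h7
          · rw [h7]
            exact h6
        · rintro ⟨a, ⟨ha1, ha2⟩, rfl⟩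
          have ha3 : a ∈ G (p + 1) := ha2
          rw [hG] at ha3
          refine ⟨⟨a, ⟨ha1, ?_⟩, rfl⟩, ?_⟩
          · change a ∈ G p
            rw [hG]
            exact fun p' hp' => ha3 p' (by omega)
          · change c' p (Φ a) = 0
            rw [hc p (by omega)]
            exact ha3 p (by omega)
      rw [h3, h4] at h2
      exact h2.symm
  have h2 := h1 P le_rfl
  have h3 : (W ⊓ G P).map Φ = ⊥ := by
    rw [eq_bot_iff]
    rintro _ ⟨a, ⟨-, ha⟩, rfl⟩
    have ha' : a ∈ G P := ha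
    rw [hG] at ha'
    exact hΦ a ha'
  rw [h3, finrank_bot, add_zero] at h2
  exact h2

lemma fr_quot [Module.Finite ℂ E] (Φ : A →ₗ[ℂ] E) (q : A →ₗ[ℂ] Q) (hq : Function.Surjective q)
    (h : LinearMap.ker Φ ≤ LinearMap.ker q) :
    Module.Finite ℂ Q ∧ finrank ℂ Q + finrank ℂ ((LinearMap.ker q).map Φ) =
      finrank ℂ ((⊤ : Submodule ℂ A).map Φ) := by
  obtain ⟨Ψ, hΨ⟩ : ∃ Ψ : LinearMap.range Φ →ₗ[ℂ] Q, ∀ a, Ψ (Φ.rangeRestrict a) = q a := by
    refine ⟨(LinearMap.ker Φ).liftQ q h ∘ₗ Φ.quotKerEquivRange.symm.toLinearMap, fun a => ?_⟩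
    have h1 : Φ.quotKerEquivRange.symm (Φ.rangeRestrict a) = (LinearMap.ker Φ).mkQ a :=
      LinearMap.quotKerEquivRange_symm_apply_image Φ a _
    rw [LinearMap.comp_apply, LinearEquiv.coe_coe, h1, Submodule.mkQ_apply, Submodule.liftQ_apply]
  have hs : Function.Surjective Ψ := by
    intro y
    obtain ⟨a, rfl⟩ := hq y
    exact ⟨_, hΨ a⟩
  refine ⟨Module.Finite.of_surjective Ψ hs, ?_⟩
  have h1 := LinearMap.finrank_range_add_finrank_ker Ψ
  rw [LinearMap.range_eq_top.2 hs, finrank_top] at h1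
  have h2 : (LinearMap.ker Ψ).map (LinearMap.range Φ).subtype = (LinearMap.ker q).map Φ := by
    ext x
    constructor
    · rintro ⟨⟨_, a, rfl⟩, hy, rfl⟩
      refine ⟨a, ?_, rfl⟩
      change q a = 0
      rw [← hΨ]
      exact hy
    · rintro ⟨a, ha, rfl⟩
      refine ⟨Φ.rangeRestrict a, ?_, rfl⟩
      change Ψ (Φ.rangeRestrict a) = 0
      rw [hΨ]
      exact ha
  have h3 : finrank ℂ (LinearMap.ker Ψ) = finrank ℂ ((LinearMap.ker q).map Φ) := by
    rw [← h2]
    exact (Submodule.equivMapOfInjective (LinearMap.range Φ).subtype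
      (Submodule.injective_subtype _) _).finrank_eq
  rw [h3] at h1
  rw [h1, Submodule.map_top]

end Abstract

lemma sum_box (F : ℕ → ℕ → ℕ) (N : ℕ) (K : ℕ) :
    ∑ p ∈ Finset.range (K * N), F (p / N) (p % N) =
      ∑ k ∈ Finset.range K, ∑ j ∈ Finset.range N, F k j := by
  induction K with
  | zero => simp
  | succ K ih =>
    rw [Nat.succ_mul, Finset.sum_range_add, ih, Finset.sum_range_succ]
    congr 1
    refine Finset.sum_congr rfl fun x hx => ?_
    rw [Finset.mem_range] at hx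
    have h1 : (K * N + x) / N = K := by
      rw [Nat.mul_comm, Nat.mul_add_div (by omega), Nat.div_eq_of_lt hx, add_zero]
    have h2 : (K * N + x) % N = x := by
      rw [Nat.mul_comm, Nat.mul_add_mod, Nat.mod_eq_of_lt hx]
    rw [h1, h2]

section El

variable {B : Type} [CommRing B] [Algebra ℂ B] (g : Gen1 B) (n : ℕ)

lemma cf_mem (k j : ℕ) (a : AR g n) : cf g n k j a ∈ g.fil (n * j) :=
  (PowerSeries.coeff k a : SR g n).2 j

/-- the element with given coefficients -/
noncomputable def el (f : ℕ → ℕ → B) (hf : ∀ k j, f k j ∈ g.fil (n * j)) : AR g n :=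
  PowerSeries.mk fun k => (⟨PowerSeries.mk (f k), fun j => by
    rw [PowerSeries.coeff_mk]
    exact hf k j⟩ : SR g n)

lemma cf_el (f : ℕ → ℕ → B) (hf : ∀ k j, f k j ∈ g.fil (n * j)) (k j : ℕ) :
    cf g n k j (el g n f hf) = f k j := by
  change PowerSeries.coeff j ((PowerSeries.coeff k (el g n f hf) : SR g n) : PowerSeries B) = f k j
  unfold el
  rw [PowerSeries.coeff_mk]
  change PowerSeries.coeff j (PowerSeries.mk (f k)) = f k j
  rw [PowerSeries.coeff_mk]

end El

theorem len : S_Len := by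
  classical
  intro B _ _ _ g n N I hN
  have ffin : ∀ i, Module.Finite ℂ (g.fil i) := by
    intro i
    apply Module.finite_of_finrank_pos
    rcases Nat.eq_zero_or_pos i with h | h
    · rw [h, g.finrank_fil_zero]
      exact one_pos
    · rw [g.finrank_fil i h]
      exact h
  obtain ⟨q, hq⟩ : ∃ q : AR g n →ₗ[ℂ] (AR g n ⧸ I), ∀ a, q a = Ideal.Quotient.mk I a :=
    ⟨(Ideal.Quotient.mkₐ ℂ I).toLinearMap, fun a => rfl⟩
  have hqs : Function.Surjective q := by
    intro y
    obtain ⟨a, rfl⟩ := Ideal.Quotient.mk_surjective y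
    exact ⟨a, hq a⟩
  have hqk : LinearMap.ker q = I.restrictScalars ℂ := by
    ext a
    rw [LinearMap.mem_ker, hq, Ideal.Quotient.eq_zero_iff_mem]
    rfl
  obtain ⟨c, hc⟩ : ∃ c : ℕ → AR g n →ₗ[ℂ] B, ∀ p, c p = cf g n (p / N) (p % N) :=
    ⟨fun p => cf g n (p / N) (p % N), fun _ => rfl⟩
  obtain ⟨Φ, hΦ⟩ : ∃ Φ : AR g n →ₗ[ℂ] (∀ p : Fin (N * N), g.fil (n * ((p : ℕ) % N))),
      ∀ (a : AR g n) (p : Fin (N * N)), ((Φ a p : g.fil (n * ((p : ℕ) % N))) : B) =
        cf g n ((p : ℕ) / N) ((p : ℕ) % N) a :=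
    ⟨LinearMap.pi fun p => (cf g n ((p : ℕ) / N) ((p : ℕ) % N)).codRestrict
      (g.fil (n * ((p : ℕ) % N))) (cf_mem g n _ _), fun _ _ => rfl⟩
  obtain ⟨c', hc'⟩ : ∃ c' : ℕ → (∀ p : Fin (N * N), g.fil (n * ((p : ℕ) % N))) →ₗ[ℂ] B,
      ∀ (p : ℕ) (h : p < N * N) x, c' p x = (x ⟨p, h⟩ : B) := by
    refine ⟨fun p => if h : p < N * N then
      (g.fil (n * (p % N))).subtype ∘ₗ LinearMap.proj (⟨p, h⟩ : Fin (N * N)) else 0, ?_⟩
    intro p h x
    simp only [dif_pos h]
    rfl
  obtain ⟨G, hG⟩ : ∃ G : ℕ → Submodule ℂ (AR g n), ∀ p a, a ∈ G p ↔ ∀ p' < p, c p' a = 0 := by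
    refine ⟨fun p => ⨅ p' : Fin p, LinearMap.ker (c p'), fun p a => ?_⟩
    rw [Submodule.mem_iInf]
    constructor
    · intro h p' hp'
      exact h ⟨p', hp'⟩
    · intro h p'
      exact h p' p'.2
  have hker : ∀ a, (∀ p < N * N, c p a = 0) → Φ a = 0 := by
    intro a h
    ext p
    rw [hΦ, ← hc, h p p.2]
    rfl
  have hbox : ∀ a, (∀ p < N * N, c p a = 0) → ∀ k < N, ∀ j < N, cf g n k j a = 0 := by
    intro a h k hk j hj
    have h1 : k * N + j < N * N := by
      have : (k + 1) * N ≤ N * N := Nat.mul_le_mul_right N hk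
      rw [Nat.succ_mul] at this
      omega
    have h2 := h _ h1
    have h3 : (k * N + j) / N = k := by
      rw [Nat.mul_comm, Nat.mul_add_div (by omega), Nat.div_eq_of_lt hj, add_zero]
    have h4 : (k * N + j) % N = j := by
      rw [Nat.mul_comm, Nat.mul_add_mod, Nat.mod_eq_of_lt hj]
    rwa [hc, h3, h4] at h2
  have hkq : LinearMap.ker Φ ≤ LinearMap.ker q := by
    intro a ha
    rw [hqk]
    apply hN a
    apply hbox
    intro p hp
    have h1 := hΦ a ⟨p, hp⟩
    rw [LinearMap.mem_ker.1 ha] at h1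
    rw [hc, ← h1]
    rfl
  obtain ⟨hf, hr⟩ := fr_quot Φ q hqs hkq
  refine ⟨hf, ?_⟩
  have hcΦ : ∀ p < N * N, ∀ a, c' p (Φ a) = c p a := by
    intro p hp a
    rw [hc' p hp, hΦ, hc]
  rw [fr_sum Φ c c' (N * N) G hG hcΦ hker (LinearMap.ker q),
    fr_sum Φ c c' (N * N) G hG hcΦ hker ⊤] at hr
  -- the spaces
  have hFF : ∀ p, FF g n (p / N) (p % N) ≤ G p := by
    intro p a ha
    rw [hG]
    intro p' hp'
    rw [hc]
    obtain ⟨h1, h2⟩ := ha
    rcases lt_or_eq_of_le (Nat.div_le_div_right (c := N) hp'.le) with h3 | h3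
    · exact h1 _ _ h3
    · rw [h3]
      apply h2
      have h4 := Nat.div_add_mod p N
      have h5 := Nat.div_add_mod p' N
      rw [h3] at h5
      omega
  have hA : ∀ p < N * N, ((⊤ : Submodule ℂ (AR g n)) ⊓ G p).map (c p) = g.fil (n * (p % N)) := by
    intro p hp
    apply le_antisymm
    · rintro _ ⟨a, -, rfl⟩
      rw [hc]
      exact cf_mem g n _ _ a
    · intro b hb
      have hf : ∀ k j, (if k = p / N ∧ j = p % N then b else 0) ∈ g.fil (n * j) := by
        intro k j
        split_ifs with h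
        · rw [h.2]
          exact hb
        · exact Submodule.zero_mem _
      refine ⟨el g n _ hf, ⟨trivial, hFF p ⟨fun k' j' h => ?_, fun j' h => ?_⟩⟩, ?_⟩
      · rw [cf_el, if_neg]
        rintro ⟨h1, -⟩
        omega
      · rw [cf_el, if_neg]
        rintro ⟨-, h1⟩
        omega
      · rw [hc, cf_el, if_pos ⟨rfl, rfl⟩]
  have hV : ∀ p < N * N, (LinearMap.ker q ⊓ G p).map (c p) = VV g n I (p / N) (p % N) := by
    intro p hp
    rw [hqk]
    have hN0 : 0 < N := by
      rcases Nat.eq_zero_or_pos N with h | h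
      · rw [h] at hp
        omega
      · exact h
    apply le_antisymm
    · rintro _ ⟨a, ⟨ha1, ha2⟩, rfl⟩
      have ha3 : a ∈ G p := ha2
      rw [hG] at ha3
      have hf : ∀ k j, (if k < N ∧ j < N then cf g n k j a else 0) ∈ g.fil (n * j) := by
        intro k j
        split_ifs with h
        · exact cf_mem g n _ _ a
        · exact Submodule.zero_mem _
      have h1 : ∀ k j, cf g n k j (el g n _ hf) = if k < N ∧ j < N then cf g n k j a else 0 :=
        cf_el g n _ hf
      have hpk : p / N < N := Nat.div_lt_of_lt_mul hp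
      have hpj : p % N < N := Nat.mod_lt _ hN0
      refine ⟨el g n _ hf, ⟨?_, ⟨fun k' j' h => ?_, fun j' h => ?_⟩⟩, ?_⟩
      · have h2 : a - el g n _ hf ∈ I := by
          apply hN
          intro k hk j hj
          rw [map_sub, h1, if_pos ⟨hk, hj⟩, sub_self]
        have h3 := I.sub_mem (show a ∈ I from ha1) h2
        rw [sub_sub_cancel] at h3
        exact h3
      · rw [h1]
        split_ifs with h2
        · have h3 : k' * N + j' < p := by
            have h4 := Nat.div_add_mod p N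
            have h5 : (k' + 1) * N ≤ (p / N) * N := Nat.mul_le_mul_right N h
            rw [Nat.succ_mul, Nat.mul_comm (p / N) N] at h5
            omega
          have h4 := ha3 _ h3
          have h5 : (k' * N + j') / N = k' := by
            rw [Nat.mul_comm, Nat.mul_add_div (by omega), Nat.div_eq_of_lt h2.2, add_zero]
          have h6 : (k' * N + j') % N = j' := by
            rw [Nat.mul_comm, Nat.mul_add_mod, Nat.mod_eq_of_lt h2.2]
          rwa [hc, h5, h6] at h4
        · rfl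
      · rw [h1]
        split_ifs with h2
        · have h3 : (p / N) * N + j' < p := by
            have h4 := Nat.div_add_mod p N
            rw [Nat.mul_comm (p / N) N]
            omega
          have h4 := ha3 _ h3
          have h5 : ((p / N) * N + j') / N = p / N := by
            rw [Nat.mul_comm, Nat.mul_add_div (by omega), Nat.div_eq_of_lt h2.2, add_zero]
          have h6 : ((p / N) * N + j') % N = j' := by
            rw [Nat.mul_comm, Nat.mul_add_mod, Nat.mod_eq_of_lt h2.2]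
          rwa [hc, h5, h6] at h4
        · rfl
      · rw [h1, if_pos ⟨hpk, hpj⟩, hc]
    · rintro _ ⟨a, ⟨ha1, ha2⟩, rfl⟩
      exact ⟨a, ⟨ha1, hFF p ha2⟩, by rw [hc]⟩
  have e1 : ∑ p ∈ Finset.range (N * N), finrank ℂ ((LinearMap.ker q ⊓ G p).map (c p)) =
      ∑ k ∈ Finset.range N, ∑ j ∈ Finset.range N, finrank ℂ (VV g n I k j) := by
    rw [← sum_box (fun k j => finrank ℂ (VV g n I k j)) N N]
    refine Finset.sum_congr rfl fun p hp => ?_
    rw [hV p (Finset.mem_range.1 hp)]
  have e2 : ∑ p ∈ Finset.range (N * N), finrank ℂ (((⊤ : Submodule ℂ (AR g n)) ⊓ G p).map (c p)) =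
      ∑ k ∈ Finset.range N, ∑ j ∈ Finset.range N, finrank ℂ (g.fil (n * j)) := by
    rw [← sum_box (fun k j => finrank ℂ (g.fil (n * j))) N N]
    refine Finset.sum_congr rfl fun p hp => ?_
    rw [hA p (Finset.mem_range.1 hp)]
  rw [e1, e2] at hr
  have e3 : ∑ k ∈ Finset.range N, ∑ j ∈ Finset.range N,
      (finrank ℂ (g.fil (n * j)) - finrank ℂ (VV g n I k j)) +
      ∑ k ∈ Finset.range N, ∑ j ∈ Finset.range N, finrank ℂ (VV g n I k j) =
      ∑ k ∈ Finset.range N, ∑ j ∈ Finset.range N, finrank ℂ (g.fil (n * j)) := by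
    rw [← Finset.sum_add_distrib]
    refine Finset.sum_congr rfl fun k _ => ?_
    rw [← Finset.sum_add_distrib]
    refine Finset.sum_congr rfl fun j _ => ?_
    apply Nat.sub_add_cancel
    apply Submodule.finrank_mono
    rintro _ ⟨a, -, rfl⟩
    exact cf_mem g n _ _ a
  omega

end Pool.Agent.Q53.LM
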