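import Pool.Agent.Q55.LM.Stm

/-!
# Project LM (helper55), job PENCIL: two elements generate the same ideal
-/

set_option autoImplicit false

namespace Pool.Agent.Q53.LM

open Module Pool.Agent.Q55.LM

lemma span_span_C {B : Type} [CommRing B] [Algebra ℂ B] (s : Set B) :
    Ideal.span ((Submodule.span ℂ s : Submodule ℂ B) : Set B) = Ideal.span s :=
  Submodule.span_span_of_tower ℂ B s

theorem pencil (hMu : S_Mu) (hDim : S_Dim) : S_Pencil := by
  classical
  intro B _ _ _ g V hV h2
  obtain ⟨mfin, mtop, mle, mmul, mmono, mline⟩ := hMu B g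
  have hV0 : V ≠ ⊥ := by
    rintro rfl
    rw [finrank_bot] at h2
    omega
  obtain ⟨s, hs, hs0, hsd⟩ := mtop V hV hV0
  obtain ⟨I, hIdef⟩ : ∃ I : Ideal B, I = Ideal.span (V : Set B) := ⟨_, rfl⟩
  have hVI : ∀ v ∈ V, v ∈ I := fun v hv => hIdef ▸ Ideal.subset_span hv
  have hI0 : I ≠ ⊥ := fun h => hs0 (by
    have := hVI s hs
    rwa [h, Ideal.mem_bot] at this)
  have hs1 : Ideal.span {s} ≠ (0 : Ideal B) := by
    rw [Ideal.zero_eq_bot, Ne, Ideal.span_singleton_eq_bot]
    exact hs0
  have hfin := Ideal.finite_factors hs1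
  obtain ⟨VM, hVM⟩ : ∃ VM : IsDedekindDomain.HeightOneSpectrum B → Submodule ℂ V, ∀ M,
      VM M = ((M.asIdeal * I).restrictScalars ℂ).comap V.subtype := ⟨_, fun _ => rfl⟩
  have hprop : ∀ M, VM M ≠ ⊤ := by
    intro M hM
    have h3 : I ≤ M.asIdeal * I := by
      conv_lhs => rw [hIdef]
      rw [Ideal.span_le]
      intro v hv
      have h4 : (⟨v, hv⟩ : V) ∈ VM M := by rw [hM]; trivial
      rw [hVM] at h4
      exact h4
    have h4 : M.asIdeal * I = 1 * I := by
      rw [one_mul]
      exact le_antisymm Ideal.mul_le_right h3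
    have h5 := mul_right_cancel₀ hI0 h4
    exact M.isPrime.ne_top (by rw [h5, Ideal.one_eq_top])
  have hU := Subspace.biUnion_ne_univ_of_top_notMem (k := ℂ) (E := V)
    (s := hfin.toFinset.image VM) (by
      rw [Finset.mem_image]
      rintro ⟨M, -, hM⟩
      exact hprop M hM)
  obtain ⟨t, ht⟩ := (Set.ne_univ_iff_exists_notMem _).1 hU
  have ht' : ∀ M : IsDedekindDomain.HeightOneSpectrum B, s ∈ M.asIdeal →
      (t : B) ∉ M.asIdeal * I := by
    intro M hM h3
    apply ht
    rw [Set.mem_iUnion₂]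
    refine ⟨VM M, ?_, ?_⟩
    · rw [Finset.mem_image]
      refine ⟨M, ?_, rfl⟩
      rw [Set.Finite.mem_toFinset]
      change M.asIdeal ∣ Ideal.span {s}
      rw [Ideal.dvd_span_singleton]
      exact hM
    · rw [hVM]
      exact h3
  have hst : Ideal.span {s, (t : B)} = I := by
    have h3 : Ideal.span {s, (t : B)} ≤ I := by
      rw [Ideal.span_le]
      intro x hx
      rcases hx with rfl | hx
      · exact hVI _ hs
      · rw [Set.mem_singleton_iff] at hx
        rw [hx]
        exact hVI _ t.2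
    obtain ⟨J, hJ⟩ := Ideal.dvd_iff_le.2 h3
    by_cases hJt : J = ⊤
    · rw [hJ, hJt, Ideal.mul_top]
    · exfalso
      obtain ⟨M, hM, hJM⟩ := Ideal.exists_le_maximal J hJt
      have h4 : s ∈ I * J := hJ ▸ Ideal.subset_span (Set.mem_insert _ _)
      have h5 : (t : B) ∈ I * J := hJ ▸ Ideal.subset_span (Set.mem_insert_of_mem _ rfl)
      have h6 : I * J ≤ M * I := by
        rw [mul_comm M I]
        exact Ideal.mul_mono_right hJM
      have h7 : s ∈ M := (Ideal.mul_le_left : M * I ≤ M) (h6 h4)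
      have hM0 : M ≠ ⊥ := fun h => hs0 (by rwa [h, Ideal.mem_bot] at h7)
      exact ht' ⟨M, hM.isPrime, hM0⟩ h7 (h6 h5)
  obtain ⟨W, hW⟩ : ∃ W : Submodule ℂ B, W = Submodule.span ℂ ({s, (t : B)} : Set B) := ⟨_, rfl⟩
  have hWV : W ≤ V := by
    rw [hW, Submodule.span_le]
    intro x hx
    rcases hx with rfl | hx
    · exact hs
    · rw [Set.mem_singleton_iff] at hx
      rw [hx]
      exact t.2
  have hWf : Module.Finite ℂ W := Submodule.finiteDimensional_of_le hWV
  have hsW : s ∈ W := hW ▸ Submodule.subset_span (Set.mem_insert _ _)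
  have hW0 : W ≠ ⊥ := fun h => hs0 (by rwa [h, Submodule.mem_bot] at hsW)
  have htop : g.top W = g.top V := by
    apply le_antisymm
    · obtain ⟨w, hw, -, hwd⟩ := mtop W hWf hW0
      rw [← hwd]
      exact mle V hV w (hWV hw)
    · rw [← hsd]
      exact mle W hWf s hsW
  have hmu : g.mu W = g.mu V := by
    unfold Gen1.mu
    rw [htop, ← hIdef, hW, span_span_C, hst]
  refine ⟨s, t, hs, t.2, ?_, ?_⟩
  · rw [← hW]
    have h3 : finrank ℂ W ≤ 2 := by
      rw [hW]
      refine (finrank_span_le_card _).trans ?_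
      rw [Set.toFinset_insert, Set.toFinset_singleton]
      exact Finset.card_le_two
    have h4 : finrank ℂ W ≠ 0 := fun h => hW0 (Submodule.finrank_eq_zero.1 h)
    have h5 : finrank ℂ W ≠ 1 := by
      intro h
      have h6 := (hDim B g W hWf).2 h
      have h7 := (hDim B g V hV).1 h2
      omega
    omega
  · rw [← hW]
    exact hmu

end Pool.Agent.Q53.LM
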